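import Pool.Agent.Mg.F402458.Gf79073

open Pool.Agent.MP_402458_gt

namespace Pool.Agent.Results.MP_402458_gt.Q1TangentSeNotOpen

/-- Negative answer to Q1, with `N` a point of a complete Riemannian manifold. -/
theorem result :
    ∃ (g : EuclideanSpace ℝ (Fin 4) →
        EuclideanSpace ℝ (Fin 4) →L[ℝ] EuclideanSpace ℝ (Fin 4) →L[ℝ] ℝ)
      (p : EuclideanSpace ℝ (Fin 4)),
      IsRiemannianMetric g ∧ IsCompleteMetric g ∧
      ∃ u ∈ tangentSeparatingSet g p,
        u ∈ closure (tangentCutLocus g p \ tangentSeparatingSet g p) :=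
  ⟨gm, p0, isRiemannianMetric_gm, isCompleteMetric_gm, _, tangent_counterexample.1,
    tangent_counterexample.2⟩

end Pool.Agent.Results.MP_402458_gt.Q1TangentSeNotOpen
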